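import Pool.Agent.W251.EX.Defs

/-!
# EX-AMV: mean value from logarithmic mean value
-/

set_option autoImplicit false

namespace Pool.Agent.W973.EX

open Finset Filter
open Pool.Agent.W251.EX

/-- exchange of the divisor sum -/
theorem exch (f g : ℕ → ℂ) (N : ℕ) :
    ∑ n ∈ Icc 1 N, ∑ d ∈ n.divisors, g d * f (n / d) =
      ∑ m ∈ Icc 1 N, f m * ∑ d ∈ Icc 1 (N / m), g d := by
  simp_rw [Finset.mul_sum]
  rw [Finset.sum_sigma', Finset.sum_sigma']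
  refine Finset.sum_bij' (fun x _ => ⟨x.1 / x.2, x.2⟩) (fun y _ => ⟨y.1 * y.2, y.2⟩) ?_ ?_ ?_ ?_ ?_
  · rintro ⟨n, d⟩ h
    rw [Finset.mem_sigma] at h
    obtain ⟨h1, h2⟩ := h
    simp only [Finset.mem_Icc, Nat.mem_divisors] at h1 h2
    obtain ⟨c, hc⟩ := h2.1
    have hd : 0 < d := Nat.pos_of_ne_zero (by rintro rfl; simp at hc; omega)
    have hc0 : 0 < c := Nat.pos_of_ne_zero (by rintro rfl; simp at hc; omega)
    have e : n / d = c := by rw [hc]; exact Nat.mul_div_cancel_left c hd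
    rw [Finset.mem_sigma]
    simp only [Finset.mem_Icc, e]
    refine ⟨⟨hc0, ?_⟩, hd, ?_⟩
    · calc c ≤ d * c := Nat.le_mul_of_pos_left c hd
        _ = n := hc.symm
        _ ≤ N := h1.2
    · rw [Nat.le_div_iff_mul_le hc0, ← hc]
      exact h1.2
  · rintro ⟨m, d⟩ h
    rw [Finset.mem_sigma] at h
    obtain ⟨h1, h2⟩ := h
    simp only [Finset.mem_Icc] at h1 h2
    have hm : 0 < m := h1.1
    rw [Finset.mem_sigma]
    simp only [Finset.mem_Icc, Nat.mem_divisors]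
    have h3 : d * m ≤ N := (Nat.le_div_iff_mul_le hm).1 h2.2
    have h4 : 0 < m * d := Nat.mul_pos hm h2.1
    refine ⟨⟨h4, by rw [Nat.mul_comm]; exact h3⟩, Dvd.intro_left m rfl, h4.ne'⟩
  · rintro ⟨n, d⟩ h
    rw [Finset.mem_sigma] at h
    simp only [Finset.mem_Icc, Nat.mem_divisors] at h
    simp only [Nat.div_mul_cancel h.2.1]
  · rintro ⟨m, d⟩ h
    rw [Finset.mem_sigma] at h
    simp only [Finset.mem_Icc] at h
    have hd : 0 < d := h.2.1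
    simp only [Nat.mul_div_cancel m hd]
  · rintro ⟨n, d⟩ h
    simp only [mul_comm]

/-- the weighted sums of `r` -/
theorem sum_div (r : ℕ → ℝ) (C : ℝ) (hs : ∀ n : ℕ, ∑ k ∈ Icc 1 n, r k ≤ C * n) (N : ℕ) :
    ∑ m ∈ Icc 1 (N + 1), r m / m + (C * (N + 1) - ∑ m ∈ Icc 1 (N + 1), r m) / (N + 1) ≤
      C * (harmonic (N + 1) : ℝ) := by
  induction N with
  | zero => simp [harmonic]
  | succ N ih =>
    rw [Finset.sum_Icc_succ_top (by omega : 1 ≤ N + 1 + 1) (fun k => r k / (k : ℝ)),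
      Finset.sum_Icc_succ_top (by omega : 1 ≤ N + 1 + 1) r, harmonic_succ]
    have hD := hs (N + 1)
    set R := ∑ k ∈ Icc 1 (N + 1), r k with hR
    set S := ∑ k ∈ Icc 1 (N + 1), r k / k with hS
    push_cast at hD ⊢
    have h1 : (0 : ℝ) < (N : ℝ) + 1 := by positivity
    have h2 : (0 : ℝ) < (N : ℝ) + 1 + 1 := by positivity
    have h3 : (C * ((N : ℝ) + 1) - R) / ((N : ℝ) + 1 + 1) ≤ (C * ((N : ℝ) + 1) - R) / ((N : ℝ) + 1) :=
      div_le_div_of_nonneg_left (by linarith) h1 (by linarith)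
    have h4 : r (N + 1 + 1) / ((N : ℝ) + 1 + 1) +
        (C * ((N : ℝ) + 1 + 1) - (R + r (N + 1 + 1))) / ((N : ℝ) + 1 + 1) =
        C * ((N : ℝ) + 1 + 1)⁻¹ + (C * ((N : ℝ) + 1) - R) / ((N : ℝ) + 1 + 1) := by
      field_simp
      ring
    have h5 : C * ((harmonic (N + 1) : ℝ) + ((N : ℝ) + 1 + 1)⁻¹) =
        C * (harmonic (N + 1) : ℝ) + C * ((N : ℝ) + 1 + 1)⁻¹ := by ring
    rw [h5]
    linarith

theorem sum_div' (r : ℕ → ℝ) (C : ℝ) (hC : 0 ≤ C) (hs : ∀ n : ℕ, ∑ k ∈ Icc 1 n, r k ≤ C * n)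
    (N : ℕ) (hN : 1 ≤ N) : ∑ m ∈ Icc 1 N, r m / m ≤ C * (1 + Real.log N) := by
  obtain ⟨N, rfl⟩ : ∃ k, N = k + 1 := ⟨N - 1, by omega⟩
  have h := sum_div r C hs N
  have h1 := hs (N + 1)
  have h2 : 0 ≤ (C * ((N : ℝ) + 1) - ∑ m ∈ Icc 1 (N + 1), r m) / ((N : ℝ) + 1) := by
    push_cast at h1
    exact div_nonneg (by linarith) (by positivity)
  have h3 := mul_le_mul_of_nonneg_left (harmonic_le_one_add_log (N + 1)) hC
  linarith

theorem sum_log (r : ℕ → ℝ) (C : ℝ) (hC : 0 ≤ C) (hs : ∀ n : ℕ, ∑ k ∈ Icc 1 n, r k ≤ C * n)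
    (N : ℕ) : ∑ n ∈ Icc 1 N, r n * (Real.log N - Real.log n) ≤ C * N := by
  induction N with
  | zero => simp
  | succ N ih =>
    rw [Finset.sum_Icc_succ_top (by omega)]
    rcases Nat.eq_zero_or_pos N with rfl | hN
    · simpa using hC
    have h1 : ∑ n ∈ Icc 1 N, r n * (Real.log ((N + 1 : ℕ) : ℝ) - Real.log n) =
        ∑ n ∈ Icc 1 N, r n * (Real.log N - Real.log n) +
          (∑ n ∈ Icc 1 N, r n) * (Real.log ((N + 1 : ℕ) : ℝ) - Real.log N) := by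
      rw [Finset.sum_mul, ← Finset.sum_add_distrib]
      exact Finset.sum_congr rfl fun n _ => by ring
    have hN' : (0 : ℝ) < N := by exact_mod_cast hN
    have h2 : Real.log ((N + 1 : ℕ) : ℝ) - Real.log N ≤ 1 / N := by
      rw [← Real.log_div (by positivity) hN'.ne']
      have := Real.log_le_sub_one_of_pos (x := ((N + 1 : ℕ) : ℝ) / N) (by positivity)
      refine this.trans (le_of_eq ?_)
      push_cast
      field_simp
      ring
    have h3 : 0 ≤ Real.log ((N + 1 : ℕ) : ℝ) - Real.log N := by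
      have := Real.log_le_log hN' (show (N : ℝ) ≤ ((N + 1 : ℕ) : ℝ) by push_cast; linarith)
      linarith
    have h4 : (∑ n ∈ Icc 1 N, r n) * (Real.log ((N + 1 : ℕ) : ℝ) - Real.log N) ≤ C := by
      calc _ ≤ (C * N) * (Real.log ((N + 1 : ℕ) : ℝ) - Real.log N) :=
            mul_le_mul_of_nonneg_right (hs N) h3
        _ ≤ (C * N) * (1 / N) := mul_le_mul_of_nonneg_left h2 (by positivity)
        _ = C := by field_simp
    rw [h1, sub_self, mul_zero, add_zero]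
    have h5 : C * ((N + 1 : ℕ) : ℝ) = C * N + C := by push_cast; ring
    rw [h5]
    linarith

/-- the summatory function of `g` -/
theorem gsum (g : ℕ → ℂ) (κ : ℂ)
    (h : Tendsto (fun x : ℝ => (∑ n ∈ Icc 1 ⌊x⌋₊, g n) / (x : ℂ)) atTop (nhds κ)) (ε : ℝ)
    (hε : 0 < ε) : ∃ D : ℝ, 0 ≤ D ∧ ∀ y : ℝ, 0 ≤ y →
      ‖∑ n ∈ Icc 1 ⌊y⌋₊, g n - κ * y‖ ≤ ε * y + D := by
  obtain ⟨y₀, hy₀⟩ := Filter.eventually_atTop.1 (Metric.tendsto_nhds.1 h ε hε)
  set y₁ := max y₀ 1 with hy₁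
  refine ⟨∑ n ∈ Icc 1 ⌊y₁⌋₊, ‖g n‖ + ‖κ‖ * y₁, by positivity, fun y hy => ?_⟩
  rcases le_total y₁ y with h1 | h1
  · have h2 := hy₀ y ((le_max_left _ _).trans h1)
    have hy0 : 0 < y := lt_of_lt_of_le (by positivity) h1
    rw [dist_eq_norm] at h2
    have h3 : ∑ n ∈ Icc 1 ⌊y⌋₊, g n - κ * y = ((∑ n ∈ Icc 1 ⌊y⌋₊, g n) / (y : ℂ) - κ) * y := by
      have : (y : ℂ) ≠ 0 := by exact_mod_cast hy0.ne'
      field_simp
    rw [h3, norm_mul, Complex.norm_real, Real.norm_of_nonneg hy]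
    have h4 := mul_le_mul_of_nonneg_right h2.le hy
    have h5 : 0 ≤ ∑ n ∈ Icc 1 ⌊y₁⌋₊, ‖g n‖ + ‖κ‖ * y₁ := by positivity
    linarith
  · have h2 : ‖∑ n ∈ Icc 1 ⌊y⌋₊, g n‖ ≤ ∑ n ∈ Icc 1 ⌊y₁⌋₊, ‖g n‖ :=
      (norm_sum_le _ _).trans (Finset.sum_le_sum_of_subset_of_nonneg
        (Finset.Icc_subset_Icc_right (Nat.floor_le_floor h1)) fun _ _ _ => norm_nonneg _)
    have h3 : ‖κ * y‖ ≤ ‖κ‖ * y₁ := by
      rw [norm_mul, Complex.norm_real, Real.norm_of_nonneg hy]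
      exact mul_le_mul_of_nonneg_left h1 (norm_nonneg _)
    have h4 := norm_sub_le (∑ n ∈ Icc 1 ⌊y⌋₊, g n) (κ * y)
    have h5 : 0 ≤ ε * y := mul_nonneg hε.le hy
    linarith

/-- the main inequality -/
theorem ineq {f g : ℕ → ℂ} {r : ℕ → ℝ} {C : ℝ} {κ : ℂ} (L : Ld f g r C κ) (ε : ℝ) (hε : 0 < ε) :
    ∃ D : ℝ, 0 ≤ D ∧ ∀ N : ℕ, 1 ≤ N → ‖∑ n ∈ Icc 1 N, f n‖ * Real.log N ≤
      N * (D + ε * Real.log N + ‖κ‖ * ‖∑ n ∈ Icc 1 N, f n / (n : ℂ)‖) := by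
  have hr : ∀ n, 0 ≤ r n := fun n => (norm_nonneg _).trans (L.fr n)
  have hC : 0 ≤ C := by
    have := L.rs 1
    simp at this
    exact (hr 1).trans this
  set ε' := ε / (C + 1) with hε'
  have hε0 : 0 < ε' := by positivity
  have hεC : ε' * C ≤ ε := by
    rw [hε', div_mul_eq_mul_div, div_le_iff₀ (by positivity)]
    nlinarith
  obtain ⟨D, hD, hG⟩ := gsum g κ L.lim ε' hε0
  refine ⟨C + ε' * C + D * C, by positivity, fun N hN => ?_⟩
  have hN0 : (0 : ℝ) < N := by exact_mod_cast hN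
  have hNc : (N : ℂ) ≠ 0 := by exact_mod_cast hN0.ne'
  have hlog : 0 ≤ Real.log N := Real.log_nonneg (by exact_mod_cast hN)
  -- the decomposition
  have e1 : (∑ n ∈ Icc 1 N, f n) * (Real.log N : ℂ) =
      ∑ n ∈ Icc 1 N, f n * ((Real.log N - Real.log n : ℝ) : ℂ) +
        ∑ n ∈ Icc 1 N, f n * (Real.log n : ℂ) := by
    rw [Finset.sum_mul, ← Finset.sum_add_distrib]
    refine Finset.sum_congr rfl fun n _ => ?_
    push_cast
    ring
  have e2 : ∑ n ∈ Icc 1 N, f n * (Real.log n : ℂ) =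
      ∑ m ∈ Icc 1 N, f m * ∑ d ∈ Icc 1 (N / m), g d := by
    rw [← exch]
    exact Finset.sum_congr rfl fun n hn => L.ld n (Finset.mem_Icc.1 hn).1
  have e3 : ∑ m ∈ Icc 1 N, f m * ∑ d ∈ Icc 1 (N / m), g d =
      ∑ m ∈ Icc 1 N, f m * (∑ d ∈ Icc 1 (N / m), g d - κ * ((N : ℝ) / m : ℝ)) +
        κ * N * ∑ m ∈ Icc 1 N, f m / (m : ℂ) := by
    rw [Finset.mul_sum, ← Finset.sum_add_distrib]
    refine Finset.sum_congr rfl fun m hm => ?_
    have : (m : ℂ) ≠ 0 := by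
      have := (Finset.mem_Icc.1 hm).1
      exact_mod_cast (by omega : m ≠ 0)
    push_cast
    field_simp
    ring
  have b1 : ‖∑ n ∈ Icc 1 N, f n * ((Real.log N - Real.log n : ℝ) : ℂ)‖ ≤ C * N := by
    refine (norm_sum_le _ _).trans (le_trans (Finset.sum_le_sum fun n hn => ?_)
      (sum_log r C hC L.rs N))
    have hn' := Finset.mem_Icc.1 hn
    rw [norm_mul, Complex.norm_real, Real.norm_of_nonneg]
    · refine mul_le_mul_of_nonneg_right (L.fr n) ?_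
      have := Real.log_le_log (show (0 : ℝ) < n by exact_mod_cast hn'.1)
        (show (n : ℝ) ≤ N by exact_mod_cast hn'.2)
      linarith
    · have := Real.log_le_log (show (0 : ℝ) < n by exact_mod_cast hn'.1)
        (show (n : ℝ) ≤ N by exact_mod_cast hn'.2)
      linarith
  have b2 : ‖∑ m ∈ Icc 1 N, f m * (∑ d ∈ Icc 1 (N / m), g d - κ * ((N : ℝ) / m : ℝ))‖ ≤
      ε' * N * (C * (1 + Real.log N)) + D * (C * N) := by
    have h1 : ∀ m ∈ Icc 1 N,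
        ‖f m * (∑ d ∈ Icc 1 (N / m), g d - κ * ((N : ℝ) / m : ℝ))‖ ≤
          ε' * N * (r m / m) + D * r m := by
      intro m hm
      have hy : (0 : ℝ) ≤ (N : ℝ) / m := by positivity
      have h2 := hG ((N : ℝ) / m) hy
      rw [Nat.floor_div_eq_div] at h2
      rw [norm_mul]
      calc _ ≤ r m * (ε' * ((N : ℝ) / m) + D) :=
            mul_le_mul (L.fr m) h2 (norm_nonneg _) (hr m)
        _ = _ := by ring
    refine (norm_sum_le _ _).trans ((Finset.sum_le_sum h1).trans ?_)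
    rw [Finset.sum_add_distrib, ← Finset.mul_sum, ← Finset.mul_sum]
    have h3 := mul_le_mul_of_nonneg_left (sum_div' r C hC L.rs N hN)
      (show 0 ≤ ε' * N by positivity)
    have h4 := mul_le_mul_of_nonneg_left (L.rs N) hD
    linarith
  have b3 : ‖κ * N * ∑ m ∈ Icc 1 N, f m / (m : ℂ)‖ =
      N * (‖κ‖ * ‖∑ n ∈ Icc 1 N, f n / (n : ℂ)‖) := by
    rw [norm_mul, norm_mul, Complex.norm_natCast]
    ring
  have b4 : ‖∑ n ∈ Icc 1 N, f n‖ * Real.log N = ‖(∑ n ∈ Icc 1 N, f n) * (Real.log N : ℂ)‖ := by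
    rw [norm_mul, Complex.norm_real, Real.norm_of_nonneg hlog]
  rw [b4, e1, e2, e3]
  have t1 := norm_add_le (∑ n ∈ Icc 1 N, f n * ((Real.log N - Real.log n : ℝ) : ℂ))
    (∑ m ∈ Icc 1 N, f m * (∑ d ∈ Icc 1 (N / m), g d - κ * ((N : ℝ) / m : ℝ)) +
        κ * N * ∑ m ∈ Icc 1 N, f m / (m : ℂ))
  have t2 := norm_add_le
    (∑ m ∈ Icc 1 N, f m * (∑ d ∈ Icc 1 (N / m), g d - κ * ((N : ℝ) / m : ℝ)))
    (κ * N * ∑ m ∈ Icc 1 N, f m / (m : ℂ))
  rw [b3] at t2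
  have t3 : ε' * C * (N * Real.log N) ≤ ε * (N * Real.log N) :=
    mul_le_mul_of_nonneg_right hεC (by positivity)
  nlinarith

theorem amv (h : S_AMV1) : S_AMV := by
  intro f g r C κ L
  have h1 := h f g r C κ L
  rw [Metric.tendsto_atTop] at h1 ⊢
  intro δ hδ
  set ε := δ / (4 * (‖κ‖ + 1)) with hε
  have hκ : 0 < ‖κ‖ + 1 := by positivity
  have hε0 : 0 < ε := by positivity
  have hεκ : ‖κ‖ * ε ≤ δ / 4 := by
    have : (‖κ‖ + 1) * ε = δ / 4 := by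
      rw [hε]
      field_simp
    nlinarith
  obtain ⟨X₁, hX₁⟩ := h1 ε hε0
  obtain ⟨D, hD, hI⟩ := ineq L (δ / 4) (by positivity)
  refine ⟨max (X₁ + 1) (Real.exp (4 * D / δ + 1) + 1), fun x hx => ?_⟩
  have hx1 : X₁ + 1 ≤ x := (le_max_left _ _).trans hx
  have hx2 : Real.exp (4 * D / δ + 1) + 1 ≤ x := (le_max_right _ _).trans hx
  have hx0 : 0 < x := by
    have := Real.exp_pos (4 * D / δ + 1)
    linarith
  set N := ⌊x⌋₊ with hN
  have hfl : x < N + 1 := Nat.lt_floor_add_one x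
  have hfl' : (N : ℝ) ≤ x := Nat.floor_le hx0.le
  have hNe : Real.exp (4 * D / δ + 1) ≤ N := by linarith
  have hN1r : (1 : ℝ) < N := lt_of_lt_of_le (Real.one_lt_exp_iff.2 (by positivity)) hNe
  have hN1 : 1 ≤ N := by exact_mod_cast hN1r.le
  have hlog : 4 * D / δ + 1 ≤ Real.log N := by
    rw [Real.le_log_iff_exp_le (by linarith)]
    exact hNe
  have hl0 : 0 < Real.log N := Real.log_pos hN1r
  have h2 := hX₁ N (by linarith)
  rw [dist_zero_right, Nat.floor_natCast, norm_div, Complex.norm_real, Real.norm_of_nonneg hl0.le,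
    div_lt_iff₀ hl0] at h2
  have h3 := hI N hN1
  have hN0 : (0 : ℝ) < N := by linarith
  have h4 : ‖κ‖ * ‖∑ n ∈ Icc 1 N, f n / (n : ℂ)‖ ≤ δ / 4 * Real.log N := by
    calc _ ≤ ‖κ‖ * (ε * Real.log N) := mul_le_mul_of_nonneg_left h2.le (norm_nonneg _)
      _ = ‖κ‖ * ε * Real.log N := by ring
      _ ≤ _ := mul_le_mul_of_nonneg_right hεκ hl0.le
  have h5 : D ≤ δ / 4 * Real.log N := by
    have h6 : 4 * D / δ ≤ Real.log N := by linarith
    rw [div_le_iff₀ hδ] at h6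
    linarith
  have h7 : ‖∑ n ∈ Icc 1 N, f n‖ * Real.log N ≤ (3 / 4 * δ * N) * Real.log N := by
    refine h3.trans ?_
    have : (D + δ / 4 * Real.log N + ‖κ‖ * ‖∑ n ∈ Icc 1 N, f n / (n : ℂ)‖) ≤
      3 / 4 * δ * Real.log N := by linarith
    calc _ ≤ (N : ℝ) * (3 / 4 * δ * Real.log N) := mul_le_mul_of_nonneg_left this hN0.le
      _ = _ := by ring
  have h8 : ‖∑ n ∈ Icc 1 N, f n‖ ≤ 3 / 4 * δ * N := le_of_mul_le_mul_right h7 hl0
  rw [dist_zero_right, norm_div, Complex.norm_real, Real.norm_of_nonneg hx0.le, div_lt_iff₀ hx0]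
  have : δ * N ≤ δ * x := mul_le_mul_of_nonneg_left hfl' hδ.le
  nlinarith

end Pool.Agent.W973.EX
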